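import Pool.Agent.H577.QR.Stm

/-!
# Quartic symbols of odd numbers, with a bound for the modulus
-/

set_option autoImplicit false

namespace Pool.Agent.H155.QR577

open Pool.Agent.Y153.QN3
open Pool.Agent.H577.QR (S_SYM)

theorem bd {q : ℕ} (hq : 3 ≤ q) : 16 * q ≤ q ^ 5 := by
  have h1 : 3 ^ 4 ≤ q ^ 4 := Nat.pow_le_pow_left hq 4
  calc 16 * q ≤ 3 ^ 4 * q := Nat.mul_le_mul_right q (by norm_num)
    _ ≤ q ^ 4 * q := Nat.mul_le_mul_right q h1
    _ = q ^ 5 := by ring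

theorem sym_prime {q : ℕ} (hq : q.Prime) (h2 : q % 2 = 1) :
    ∃ (m : ℕ) (ε : GaussianInt → GaussianInt), Sym (q : ℤ) m ε ∧ q ∣ m ∧ m ≤ q ^ 5 := by
  haveI : Fact q.Prime := ⟨hq⟩
  have hq3 : 3 ≤ q := by
    have := hq.two_le
    omega
  have hb := bd hq3
  have h4 : q % 4 = 1 ∨ q % 4 = 3 := by omega
  rcases h4 with h4 | h4
  · obtain ⟨ε, hε⟩ := Sym_q1 h4
    exact ⟨_, ε, hε, dvd_mul_left _ _, by omega⟩
  · obtain ⟨ε, hε⟩ := Sym_q3 h4
    have h5 := Sym_neg.prod hε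
    rw [neg_one_mul, neg_neg] at h5
    exact ⟨_, _, h5, (dvd_mul_left q 4).mul_left 4, by omega⟩

theorem sym : S_SYM := by
  intro n hn
  induction n using Nat.recOnMul with
  | zero => omega
  | one => exact ⟨1, _, by exact_mod_cast Sym_one, dvd_rfl, le_rfl⟩
  | prime p hp => exact sym_prime hp hn
  | mul a b ha hb =>
    obtain ⟨h1, h2⟩ := Nat.odd_mul.1 (Nat.odd_iff.2 hn)
    obtain ⟨m, ε, h, hd, hm⟩ := ha (Nat.odd_iff.1 h1)
    obtain ⟨m', ε', h', hd', hm'⟩ := hb (Nat.odd_iff.1 h2)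
    refine ⟨m * m', fun α => ε α * ε' α, ?_, mul_dvd_mul hd hd', ?_⟩
    · rw [Nat.cast_mul]
      exact h.prod h'
    · rw [mul_pow]
      exact Nat.mul_le_mul hm hm'

end Pool.Agent.H155.QR577
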